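import Pool.Agent.E8helper39.WW.Stm
import Pool.Agent.H784R2.U.Hilb

/-!
# Project WW (helper39): Veronese vectors of different points, dimension of the forms
-/

set_option autoImplicit false

namespace Pool.Agent.E8helper89.WW

open Module MvPolynomial WW39

theorem t_DIM : S_DIM := by
  intro d
  refine ⟨H784U.finite_hom ℝ d, ?_⟩
  rw [H784U.finrank_hom ℝ d, Nat.choose_two_right]
  have e : d + 2 - 1 = d + 1 := by omega
  rw [e, mul_comm]

theorem t_INJ : S_INJ := by
  intro n p p' c hp hp' h
  have key : ∀ i j : Fin 3, p' i * p j = p' j * p i := by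
    intro i j
    have hF : ((C (p j) * X i - C (p i) * X j : MvPolynomial (Fin 3) ℝ) ^ (n + 1)).IsHomogeneous
        (n + 1) := by
      have h1 : (C (p j) * X i - C (p i) * X j : MvPolynomial (Fin 3) ℝ).IsHomogeneous 1 := by
        refine IsHomogeneous.sub ?_ ?_
        · simpa using (isHomogeneous_C (Fin 3) (p j)).mul (isHomogeneous_X ℝ i)
        · simpa using (isHomogeneous_C (Fin 3) (p i)).mul (isHomogeneous_X ℝ j)
      simpa using h1.pow (n + 1)
    have h2 := DFunLike.congr_fun h ⟨_, hF⟩
    have e1 : ∀ x : Fin 3 → ℝ, ver (n + 1) x ⟨_, hF⟩ = (p j * x i - p i * x j) ^ (n + 1) := by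
      intro x
      simp [ver]
    rw [LinearMap.smul_apply, e1, e1] at h2
    have e2 : p j * p i - p i * p j = 0 := by ring
    rw [e2, zero_pow (Nat.succ_ne_zero n), smul_zero] at h2
    have h3 := pow_eq_zero_iff (Nat.succ_ne_zero n) |>.1 h2
    linarith
  obtain ⟨k, hk⟩ : ∃ k, p k ≠ 0 := by
    by_contra hne
    push Not at hne
    exact hp (funext hne)
  refine ⟨p' k / p k, funext fun i => ?_⟩
  rw [Pi.smul_apply, smul_eq_mul, div_mul_eq_mul_div, eq_div_iff hk]
  exact key i k

end Pool.Agent.E8helper89.WW
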